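import Mathlib
import Pool.Agent.Q237.LS.Str
import Pool.Agent.Q237.LT.Tot

/-!
# The strong alternative of Lang and Silverman with the relative Faltings height, with constants
# independent of the degree

The problem asks for constants `c₁`, `c₂`, depending on the number field `L` and on `g`, such that
every `P ∈ A(L)` lies, up to a multiple at most `c₂`, in a proper abelian subvariety of degree at
most `c₂ deg A`, or has canonical height at least `c₁ max (h_F(A/L), 1)`, with `h_F` the RELATIVE
Faltings height, and generates `A` under `End(A)`; this contains the strong torsion conjecture.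

For `j ∈ K`, `poleCount j` is the sum of `log N v` over the finite poles `v` of `j`, and `addCount j`
that over the primes `v`, prime to `6` and not poles of `j`, at which all elliptic curves over `K` of
invariant `j` have additive reduction of a type other than `I₀*`: those at which `v(j)` is not
divisible by `3` or `v(j - 1728)` is not divisible by `2`.

We show the strong alternative for products of powers `A = ∏ E_i ^ (g_i)` of elliptic curves over
`L` (all twists over `L`), all polarizations given by positive definite matrices `M_i`, if the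
invariants `j_i` lie in a subfield `K` of `L` over which `δ_L ≤ δ_K * H(j_i) ^ κ`, and have
`poleCount j_i + addCount j_i / 2 ≥ (θ + κ) h(j_i)` and absolute height at least `C / θ²`. For
`L = K` this is a condition on the Szpiro ratio. The constants `c₁ = c₀ θ⁶ / g` and `c₂ = 28 / θ²`
do not depend on `K`, `L` or on the degree of `L`. So we get the uniform boundedness of the torsion
of `A(L)` with a bound which does not depend on the degree of `L`. The condition holds for all
`j ∈ K` of height at most `B`, except for at most `(C * B ^ (1 / 3 + 4 (θ + κ) / 3 + ε)) ^ n` of them,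
`n = [K : ℚ]`, while there are at least `(C⁻¹ * B ^ (2 - ε) * δ_K ^ (- (2 + ε))) ^ n` of them if
`B ≥ 16 √δ_K`.

`SPt a b` is the group of the rational points over `L` of the elliptic curve
`E : y² = x³ + a x + b`, `sht P` the height of the `x`-coordinate of `P` (relative to `L`), `chat P`
the canonical height, the limit of `sht (2 ^ k P) / 4 ^ k`, and `chatM M P` the canonical height of
the point `P` of `E ^ g` for the polarization given by the symmetric positive definite matrix `M`.
The absolute heights are the quotients by the degree of `L`.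

Proof: sharp lower bounds of the local heights, with bounded errors, at all places, an energy
inequality for the points `2P, 4P, …, 2NP`, with a gain at the finite poles of `j` and at the
additive places; the ramification is controlled by the different; the upper bound of the relative
Faltings height `12 h_F ≤ h(j) + 10 ∑ log N v / n + C`.
-/

set_option autoImplicit false
set_option linter.unusedSectionVars false

namespace Pool.Agent.Results.MP_f5471b_nt.DegreeFreeFaltings

open NumberField IsDedekindDomain Pool.Agent.TH942 Pool.Agent.TH910.LS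

/-- the modular invariant `j(τ) = E₄(τ) ^ 3 / Δ(τ) = 1 / q + 744 + ⋯` -/
noncomputable def jFun (τ : UpperHalfPlane) : ℂ :=
  ModularForm.E₄ τ ^ 3 / ModularForm.discriminant τ

/-- the archimedean term `- log (|Δ(τ)| (Im τ) ^ 6)` of the Faltings height -/
noncomputable def arch (τ : UpperHalfPlane) : ℝ :=
  -Real.log (‖ModularForm.discriminant τ‖ * τ.im ^ 6)

section Defs

variable {K : Type} [Field K] [NumberField K]

/-- the points `τ w` have modular invariant `j` -/
def IsPeriod (j : K) (τ : InfinitePlace K → UpperHalfPlane) : Prop :=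
  ∀ w, jFun (τ w) = w.embedding j

/-- the equation is integral at `v` -/
def IntAt (v : HeightOneSpectrum (𝓞 K)) (E : WeierstrassCurve K) : Prop :=
  v.valuation K E.a₁ ≤ 1 ∧ v.valuation K E.a₂ ≤ 1 ∧ v.valuation K E.a₃ ≤ 1 ∧
    v.valuation K E.a₄ ≤ 1 ∧ v.valuation K E.a₆ ≤ 1

/-- the exponent of `v` in the minimal discriminant of the curve: the least valuation at `v` of the
discriminant of a Weierstrass equation of the curve over `K` which is integral at `v` -/
noncomputable def discExp (v : HeightOneSpectrum (𝓞 K)) (E : WeierstrassCurve K) : ℕ :=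
  sInf {m : ℕ | ∃ C : WeierstrassCurve.VariableChange K, IntAt v (C • E) ∧
    v.valuation K (C • E).Δ = WithZero.exp (-(m : ℤ))}

/-- the relative (not stabilised) Faltings height of `y² = x³ + a x + b` over `K`: `12 n h_F` is the
logarithm of the norm of the minimal discriminant plus the archimedean terms -/
noncomputable def faltings (a b : K) (τ : InfinitePlace K → UpperHalfPlane) : ℝ :=
  (∑ᶠ v : HeightOneSpectrum (𝓞 K),
      (discExp v (⟨0, 0, 0, a, b⟩ : WeierstrassCurve K) : ℝ) *
        Real.log (Ideal.absNorm v.asIdeal : ℝ) +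
    ∑ w : InfinitePlace K, (w.mult : ℝ) * arch (τ w)) / (12 * Module.finrank ℚ K)

/-- the `j`-invariant of `y² = x³ + a x + b` -/
noncomputable def jInv (a b : K) : K := 6912 * a ^ 3 / (4 * a ^ 3 + 27 * b ^ 2)

open Classical in
/-- the sum of `log N v` over the finite poles `v` of `j` -/
noncomputable def poleCount (j : K) : ℝ :=
  ∑ᶠ v : HeightOneSpectrum (𝓞 K),
    if 1 < FinitePlace.mk v j then Real.log (Ideal.absNorm v.asIdeal) else 0

/-- `v` does not divide `6`, `j` has no pole at `v`, and `v(j)` is not divisible by `3` or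
`v(j - 1728)` is not divisible by `2` -/
def Additive (j : K) (v : HeightOneSpectrum (𝓞 K)) : Prop :=
  FinitePlace.mk v (2 : K) = 1 ∧ FinitePlace.mk v (3 : K) = 1 ∧ FinitePlace.mk v j ≤ 1 ∧
    ((∀ m : ℤ, FinitePlace.mk v j ≠ (Ideal.absNorm v.asIdeal : ℝ) ^ (3 * m)) ∨
      (∀ m : ℤ, FinitePlace.mk v (j - 1728) ≠ (Ideal.absNorm v.asIdeal : ℝ) ^ (2 * m)))

open Classical in
/-- the sum of `log N v` over the places `v` with `Additive j v` -/
noncomputable def addCount (j : K) : ℝ :=
  ∑ᶠ v : HeightOneSpectrum (𝓞 K),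
    if Additive j v then Real.log (Ideal.absNorm v.asIdeal) else 0

/-- the absolute logarithmic height -/
noncomputable def absH (j : K) : ℝ := Height.logHeight₁ j / Module.finrank ℚ K

open Classical in
/-- For all elliptic curves over `K` of invariant `j` and all powers: the torsion points have order
at most `B`, and the strong lower bound with constant `c` holds for all points of infinite order,
with all polarizations. -/
def StrongLS (c B : ℝ) (j : K) : Prop :=
  ∀ (a b : K) (τ : InfinitePlace K → UpperHalfPlane), 4 * a ^ 3 + 27 * b ^ 2 ≠ 0 →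
    jInv a b = j → IsPeriod j τ → ∀ g : ℕ,
    (∀ P : Fin g → SPt a b, IsOfFinAddOrder P → (addOrderOf P : ℝ) ≤ B) ∧
    ∀ (M : Matrix (Fin g) (Fin g) ℤ), (M.map (Int.cast : ℤ → ℝ)).PosDef →
    ∀ P : Fin g → SPt a b, ¬ IsOfFinAddOrder P →
      c * max (faltings a b τ) 1 ≤ chatM M P / Module.finrank ℚ K

variable (K)

/-- the root discriminant `δ_K` -/
noncomputable def rootDisc : ℝ :=
  |(NumberField.discr K : ℝ)| ^ (1 / (Module.finrank ℚ K : ℝ))

/-- the invariants of absolute height at most `B` -/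
def Inv (B : ℝ) : Set K :=
  {j | j ≠ 0 ∧ j ≠ 1728 ∧ Height.logHeight₁ j ≤ Module.finrank ℚ K * Real.log B}

variable {K}

/-- The bounds hold, with the constants `c` and `B`, over all finite extensions `L` of `K` with root
discriminant at most `δ_K * H(j) ^ κ`. -/
def InExtensions (κ c B : ℝ) (j : K) : Prop :=
  ∀ (L : Type) [Field L] [NumberField L] [Algebra K L],
    rootDisc L ≤ rootDisc K * Real.exp (κ * absH j) → StrongLS c B (algebraMap K L j)

variable (K)

/-- the invariants of height at most `B` for which the bounds with the constants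
`c₀ θ⁶` and `28 / θ²` fail in some extension -/
def Exc (c₀ θ κ B : ℝ) : Set K :=
  {j ∈ Inv K B | ¬ InExtensions κ (c₀ * θ ^ 6) (28 / θ ^ 2) j}

end Defs

open Pool.Agent.Y733.UD Pool.Agent.Y733.LS Pool.Agent.W223.AK Pool.Agent.H691R3
open Pool.Agent.Q237.LS Pool.Agent.Q237.LT

section Aux

variable {K : Type} [Field K] [NumberField K]

open Classical in
theorem poleCount_eq (j : K) : poleCount j = fa j := by
  unfold fa
  rw [← fsum_ite (wa j) (fun v => Real.log (Nv v))]
  unfold poleCount
  refine finsum_congr fun v => ?_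
  by_cases h : v ∈ wa j
  · have hp : 1 < FinitePlace.mk v j := mem_wa.1 h
    rw [if_pos h, if_pos hp]
    rfl
  · have hp : ¬ 1 < FinitePlace.mk v j := fun h' => h (mem_wa.2 h')
    rw [if_neg h, if_neg hp]

open Classical in
theorem addCount_eq {j : K} (h0 : j ≠ 0) (h1 : j ≠ 1728) : addCount j = fu j := by
  unfold fu
  rw [← fsum_ite (wu j) (fun v => Real.log (Nv v))]
  unfold addCount
  refine finsum_congr fun v => ?_
  by_cases h : v ∈ wu j
  · have hp : Additive j v := (mem_wu h0 h1).1 h
    rw [if_pos h, if_pos hp]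
    rfl
  · have hp : ¬ Additive j v := fun h' => h ((mem_wu h0 h1).2 h')
    rw [if_neg h, if_neg hp]

/-- the relation of the definitions -/
theorem faltings_eq (a b : K) (τ : InfinitePlace K → UpperHalfPlane) :
    faltings a b τ = (Pool.Agent.Y733.FF.discSum (sw a b) +
      ∑ w : InfinitePlace K, (w.mult : ℝ) * Pool.Agent.TH876.FH.arch (τ w)) /
        (12 * Module.finrank ℚ K) := rfl

end Aux

open Classical in
theorem strong_of : ∃ c₀ : ℝ, 0 < c₀ ∧ ∀ (K : Type) [Field K] [NumberField K] (c B : ℝ) (j : K),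
    0 ≤ c → Pool.Agent.Q237.LS.LT c B j → StrongLS (c₀ * c) B j := by
  obtain ⟨c₀, hc₀, h⟩ := strongLT
  refine ⟨c₀, hc₀, ?_⟩
  intro K _ _ c B j hc hLT a b τ hD hj hτ g
  have hn := Pool.Agent.Q237.LS.n_pos (K := K)
  have hcc : 0 ≤ c₀ * c := mul_nonneg hc₀.le hc
  have hτ' : Pool.Agent.TH876.FH.IsPeriod (jj a b) τ := by
    have e : jj a b = j := hj
    rw [e]
    exact hτ
  constructor
  · intro P hP
    obtain ⟨m, hm, hmB, hmP⟩ := fam_tors (hLT a b hD hj).1 P (tors_pi hP)
    have h1 : addOrderOf P ≤ m := addOrderOf_le_of_nsmul_eq_zero hm hmP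
    exact le_trans (by exact_mod_cast h1) hmB
  · intro M hM P hP
    obtain ⟨h1, h2⟩ := h K c B j hc hLT a b τ hD hj hτ' g M hM P hP
    rw [le_div_iff₀ hn]
    have h3 : (0 : ℝ) ≤ chatM M P := le_trans (mul_nonneg hcc hn.le) h2
    rcases le_total (faltings a b τ) 1 with h4 | h4
    · rw [max_eq_right h4, mul_one]
      exact h2
    · rw [max_eq_left h4]
      have h5 : Pool.Agent.Y733.FF.discSum (sw a b) +
          ∑ w : InfinitePlace K, (w.mult : ℝ) * Pool.Agent.TH876.FH.arch (τ w) =
          12 * Module.finrank ℚ K * faltings a b τ := by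
        rw [faltings_eq, mul_div_cancel₀ _ (by positivity)]
      rw [h5] at h1
      have h6 : 0 ≤ c₀ * c * faltings a b τ * Module.finrank ℚ K :=
        mul_nonneg (mul_nonneg hcc (by linarith)) hn.le
      nlinarith

/-- the constant of the strong bounds -/
def Good (c₀ : ℝ) : Prop :=
  ∀ (K : Type) [Field K] [NumberField K] (c B κ : ℝ) (j : K),
    0 ≤ c → UT κ c B j → InExtensions κ (c₀ * c) B j

theorem good_of : ∃ c₀ : ℝ, 0 < c₀ ∧ Good c₀ := by
  classical
  obtain ⟨c₁, hc₁, h⟩ := strong_of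
  refine ⟨c₁, hc₁, ?_⟩
  intro K _ _ c B κ j hc hj L _ _ _ hL
  exact h L _ _ _ hc (hj L (rDisc_le hL))

/-- a single invariant and all extensions -/
theorem part_zero {c₁ : ℝ} (hc₁ : 0 < c₁) (h : Good c₁) : ∃ C : ℝ, 0 < C ∧
    ∀ θ κ : ℝ, 0 < θ → θ ≤ 1 →
    ∀ (K : Type) [Field K] [NumberField K] (j : K), j ≠ 0 → j ≠ 1728 →
      (θ + κ) * Height.logHeight₁ j ≤ poleCount j + addCount j / 2 → C / θ ^ 2 ≤ absH j →
      InExtensions κ (c₁ / 290000 * θ ^ 6) (28 / θ ^ 2) j := by
  classical
  refine ⟨144 * c8, by have := c8_pos; positivity, ?_⟩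
  intro θ κ hθ hθ1 K _ _ j h0 h1 hf hh
  rw [poleCount_eq, addCount_eq h0 h1, ht_log] at hf
  unfold absH at hh
  rw [ht_log] at hh
  have hn := Pool.Agent.Q237.LS.n_pos (K := K)
  have hθ2 : 0 < θ ^ 2 := by positivity
  rw [div_le_div_iff₀ hθ2 hn] at hh
  have e : c₁ / 290000 * θ ^ 6 = c₁ * (θ ^ 6 / 290000) := by ring
  rw [e]
  apply h K _ _ _ _ (by positivity)
  intro L _ _ _ _ hL
  exact LTU_ext h0 h1 hθ hθ1 hf (by linarith) hL

/-- the exceptional invariants -/
theorem part_one {c₁ : ℝ} (hc₁ : 0 < c₁) (h : Good c₁) :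
    ∀ θ κ ε : ℝ, 0 < θ → θ ≤ 1 → 0 ≤ κ → 0 < ε → ∃ C : ℝ, 0 < C ∧
      ∀ (K : Type) [Field K] [NumberField K] (B : ℝ), 1 ≤ B →
        (Inv K B).Finite ∧
        ((Exc K (c₁ / 290000) θ κ B).ncard : ℝ) ≤
          (C * B ^ (1 / 3 + 4 / 3 * (θ + κ) + ε)) ^ Module.finrank ℚ K := by
  intro θ κ ε hθ hθ1 hκ0 hε
  set R : Prp := fun K _ _ j =>
    InExtensions κ (c₁ / 290000 * θ ^ 6) (28 / θ ^ 2) j with hR
  obtain ⟨A1, hA1, h1⟩ := log_countU hθ hθ1 hκ0 (half_pos hε) R (fun K _ _ j hj => by
    have e : c₁ / 290000 * θ ^ 6 = c₁ * (θ ^ 6 / 290000) := by ring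
    show InExtensions κ (c₁ / 290000 * θ ^ 6) (28 / θ ^ 2) j
    rw [e]
    exact h K _ _ _ _ (by positivity) hj)
  exact countsU R hε h1

open Classical in
/-- products of powers -/
theorem part_two {L : Type} [Field L] [NumberField L] {c B : ℝ} (hc : 0 < c) {r : ℕ}
    (hr : 0 < r) (a b : Fin r → L) (τ : Fin r → InfinitePlace L → UpperHalfPlane)
    (hD : ∀ i, 4 * a i ^ 3 + 27 * b i ^ 2 ≠ 0) (hj : ∀ i, StrongLS c B (jInv (a i) (b i)))
    (hτ : ∀ i, IsPeriod (jInv (a i) (b i)) (τ i)) (g : Fin r → ℕ) (hg : ∀ i, 1 ≤ g i)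
    (M : ∀ i, Matrix (Fin (g i)) (Fin (g i)) ℤ)
    (hM : ∀ i, ((M i).map (Int.cast : ℤ → ℝ)).PosDef) (P : ∀ i, Fin (g i) → SPt (a i) (b i)) :
    (∃ i, IsOfFinAddOrder (P i) ∧ (addOrderOf (P i) : ℝ) ≤ B) ∨
      ((∀ i, ¬ IsOfFinAddOrder (P i)) ∧
      c / (∑ i, g i : ℕ) * max (∑ i, g i * faltings (a i) (b i) (τ i)) 1 ≤
        (∑ i, chatM (M i) (P i)) / Module.finrank ℚ L) := by
  by_cases h0 : ∃ i, IsOfFinAddOrder (P i)
  · obtain ⟨i, hi⟩ := h0
    exact Or.inl ⟨i, hi, (hj i (a i) (b i) (τ i) (hD i) rfl (hτ i) (g i)).1 (P i) hi⟩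
  right
  push Not at h0
  refine ⟨h0, ?_⟩
  have h1 : ∀ i, c * max (faltings (a i) (b i) (τ i)) 1 ≤
      chatM (M i) (P i) / Module.finrank ℚ L := fun i =>
    (hj i (a i) (b i) (τ i) (hD i) rfl (hτ i) (g i)).2 (M i) (hM i) (P i) (h0 i)
  set G : ℕ := ∑ i, g i with hG
  have hGi : ∀ i, g i ≤ G := fun i => Finset.single_le_sum (fun _ _ => Nat.zero_le _)
    (Finset.mem_univ i)
  have hG1 : 1 ≤ G := (hg ⟨0, hr⟩).trans (hGi ⟨0, hr⟩)
  have hG0 : (0 : ℝ) < G := by exact_mod_cast hG1
  have h2 : max (∑ i, g i * faltings (a i) (b i) (τ i)) 1 ≤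
      ∑ i, (g i : ℝ) * max (faltings (a i) (b i) (τ i)) 1 := by
    apply max_le
    · exact Finset.sum_le_sum fun i _ =>
        mul_le_mul_of_nonneg_left (le_max_left _ _) (Nat.cast_nonneg _)
    · have h3 : (G : ℝ) ≤ ∑ i, (g i : ℝ) * max (faltings (a i) (b i) (τ i)) 1 := by
        rw [hG]
        push_cast
        refine Finset.sum_le_sum fun i _ => ?_
        exact le_mul_of_one_le_right (Nat.cast_nonneg _) (le_max_right _ _)
      have h4 : (1 : ℝ) ≤ G := by exact_mod_cast hG1
      linarith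
  calc c / G * max (∑ i, g i * faltings (a i) (b i) (τ i)) 1
      ≤ c / G * ∑ i, (g i : ℝ) * max (faltings (a i) (b i) (τ i)) 1 :=
        mul_le_mul_of_nonneg_left h2 (by positivity)
    _ = ∑ i, ((g i : ℝ) / G) * (c * max (faltings (a i) (b i) (τ i)) 1) := by
        rw [Finset.mul_sum]
        refine Finset.sum_congr rfl fun i _ => ?_
        ring
    _ ≤ ∑ i, chatM (M i) (P i) / Module.finrank ℚ L := by
        refine Finset.sum_le_sum fun i _ => ?_
        refine le_trans (mul_le_of_le_one_left ?_ ?_) (h1 i)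
        · exact mul_nonneg hc.le (le_trans zero_le_one (le_max_right _ _))
        · rw [div_le_one hG0]
          exact_mod_cast hGi i
    _ = _ := by rw [Finset.sum_div]

open Classical in
/-- **Main theorem.** All constants are absolute. There are `c₀ > 0` and `C₀ > 0` such that:
(1) For `0 < θ ≤ 1`, all `κ` and all `j ∈ K` with `poleCount j + addCount j / 2 ≥ (θ + κ) h(j)` and of
absolute height at least `C₀ / θ²`, the following holds over all finite extensions `L` of `K` with
`δ_L ≤ δ_K * H(j) ^ κ`, for all elliptic curves `E` over `L` of invariant `j` and all `g`: torsion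
points of `E ^ g` over `L` have order at most `28 / θ²`, and points of infinite order have canonical
height at least `c₀ θ⁶ max (h_F(E/L), 1)`.
(2) For `κ ≥ 0` and `ε > 0`, over every number field `K` of degree `n` and for every `B ≥ 1`, these
conclusions hold for all invariants `j ∈ K` of height at most `B` with at most
`(C * B ^ (1 / 3 + 4 (θ + κ) / 3 + ε)) ^ n` exceptions.
(3) The number of all invariants.
(4) For all products of powers `A = ∏ E_i ^ (g_i)`, `g = ∑ g_i`, of curves over `L` whose invariants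
are in `K` and satisfy the conclusions of (1), and all polarizations `M_i`, each `P ∈ A(L)` has a
component in some `E_i ^ (g_i)` of order at most `28 / θ²` (so that `P`, up to this multiple, is in
the abelian subvariety given by the other factors), or each component `P_i` has infinite order and
the canonical height of `P` is at least `(c₀ θ⁶ / g) max (h_F(A/L), 1)`.
(5) `chat` is the limit of `sht (2 ^ k P) / 4 ^ k`. -/
theorem result :
    ∃ c₀ C₀ : ℝ, 0 < c₀ ∧ 0 < C₀ ∧
      (∀ θ κ : ℝ, 0 < θ → θ ≤ 1 →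
        ∀ (K : Type) [Field K] [NumberField K] (j : K), j ≠ 0 → j ≠ 1728 →
          (θ + κ) * Height.logHeight₁ j ≤ poleCount j + addCount j / 2 → C₀ / θ ^ 2 ≤ absH j →
          InExtensions κ (c₀ * θ ^ 6) (28 / θ ^ 2) j) ∧
      (∀ θ κ ε : ℝ, 0 < θ → θ ≤ 1 → 0 ≤ κ → 0 < ε → ∃ C : ℝ, 0 < C ∧
        ∀ (K : Type) [Field K] [NumberField K] (B : ℝ), 1 ≤ B →
          (Inv K B).Finite ∧
          ((Exc K c₀ θ κ B).ncard : ℝ) ≤
            (C * B ^ (1 / 3 + 4 / 3 * (θ + κ) + ε)) ^ Module.finrank ℚ K) ∧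
      (∀ ε : ℝ, 0 < ε → ∃ C : ℝ, 0 < C ∧
        ∀ (K : Type) [Field K] [NumberField K] (B : ℝ), 16 * √(rootDisc K) ≤ B →
          (C⁻¹ * B ^ (2 - ε) * rootDisc K ^ (-(2 + ε))) ^ Module.finrank ℚ K ≤
            ((Inv K B).ncard : ℝ)) ∧
      (∀ (θ κ : ℝ), 0 < θ → ∀ (K : Type) [Field K] [NumberField K] (r : ℕ), 0 < r →
        ∀ (j : Fin r → K), (∀ i, InExtensions κ (c₀ * θ ^ 6) (28 / θ ^ 2) (j i)) →
        ∀ (L : Type) [Field L] [NumberField L] [Algebra K L],
        (∀ i, rootDisc L ≤ rootDisc K * Real.exp (κ * absH (j i))) →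
        ∀ (a b : Fin r → L) (τ : Fin r → InfinitePlace L → UpperHalfPlane),
        (∀ i, 4 * a i ^ 3 + 27 * b i ^ 2 ≠ 0) →
        (∀ i, jInv (a i) (b i) = algebraMap K L (j i)) →
        (∀ i, IsPeriod (jInv (a i) (b i)) (τ i)) → ∀ g : Fin r → ℕ, (∀ i, 1 ≤ g i) →
        ∀ (M : ∀ i, Matrix (Fin (g i)) (Fin (g i)) ℤ),
        (∀ i, ((M i).map (Int.cast : ℤ → ℝ)).PosDef) →
        ∀ P : ∀ i, Fin (g i) → SPt (a i) (b i),
          (∃ i, IsOfFinAddOrder (P i) ∧ (addOrderOf (P i) : ℝ) ≤ 28 / θ ^ 2) ∨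
          ((∀ i, ¬ IsOfFinAddOrder (P i)) ∧
            c₀ * θ ^ 6 / (∑ i, g i : ℕ) *
              max (∑ i, g i * faltings (a i) (b i) (τ i)) 1 ≤
              (∑ i, chatM (M i) (P i)) / Module.finrank ℚ L)) ∧
      (∀ (K : Type) [Field K] [NumberField K] (a b : K), 4 * a ^ 3 + 27 * b ^ 2 ≠ 0 →
        ∀ P : SPt a b, Filter.Tendsto (fun k : ℕ => sht ((2 ^ k : ℕ) • P) / 4 ^ k) Filter.atTop
          (nhds (chat P))) := by
  obtain ⟨c₁, hc₁, h⟩ := good_of
  obtain ⟨C₀, hC₀, h0⟩ := part_zero hc₁ h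
  refine ⟨c₁ / 290000, C₀, by positivity, hC₀, h0, part_one hc₁ h, fun ε hε => inv_lower hε, ?_,
    fun _ _ _ _ _ hD P => (chat_spec hD).1 P⟩
  intro θ κ hθ K _ _ r hr j hjE L _ _ _ hL a b τ hD hab hτ g hg M hM P
  refine part_two (c := c₁ / 290000 * θ ^ 6) (by positivity) hr a b τ hD (fun i => ?_) hτ g hg M
    hM P
  rw [hab i]
  exact hjE i L (hL i)

end Pool.Agent.Results.MP_f5471b_nt.DegreeFreeFaltings
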