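import Pool.Agent.Results.MP_9a3c31_nt.InvariantsAlongRecurrences
import Pool.Agent.Results.MP_f5471b_nt.DegreeFreeFaltings

/-!
# The strong alternative with the relative Faltings height for products of members of one-parameter
# families of elliptic curves given by linear recurrences

A one-parameter family over the number field `K` is given by finitely many sequences `g_j` of integers
of `K` with linear recurrences with constant coefficients and by
`A_i(t) = κ_i μ_i ^ t ∏ g_j(t) ^ e_ij`, `i = 0, 1, 2`, with `A_0 + A_1 + A_2 = 0`; its invariants are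
`j_t = -1728 A_0(t) / A_2(t)`, those of the elliptic curves with
`c₄³ : - c₆² : - 1728 Δ = A_0(t) : A_1(t) : A_2(t)`.

For every `θ` there is a set `𝒢` of invariants which contains `j_s` for most `s`, for ALL these
families, such that the strong alternative holds for all products of powers of elliptic curves with
invariants in `𝒢`, with constants depending only on `θ`.
-/

set_option autoImplicit false

namespace Pool.Agent.Results.MP_f5471b_nt.ProductsAlongRecurrences

open NumberField
open Pool.Agent.TH942 (SPt)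
open Pool.Agent.TH910.LS (chatM)
open Pool.Agent.Results.MP_9a3c31_nt.InvariantsAlongRecurrences (A ForMost)
open Pool.Agent.Results.MP_f5471b_nt.DegreeFreeFaltings

/-- The set `𝒢` contains the invariants `j_s` of most members of all one-parameter families over
`K`: for each family there is a finite set `Λ` such that for `0 ≤ ρ < ρ₀`, for almost all `s`, and for
all large `s` with `h(j_s) ≥ c s`, the invariant `j_s` is in `𝒢`, if it is not in `Λ` and the product
of the `g_j(s)` with unequal exponents is the product of a squarefree ideal and of an ideal prime to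
it of norm at most `exp (ρ h(j_s))`. -/
def ContainsMost {K : Type} [Field K] [NumberField K] (𝒢 : Set K) (ρ₀ : ℝ) : Prop :=
  ∀ (J : Type) [Fintype J] (g : J → ℕ → 𝓞 K),
    (∀ j, ∃ E : LinearRecurrence (𝓞 K), E.IsSolution (g j)) →
    ∀ (κ μ : Fin 3 → 𝓞 K), (∀ i, μ i ≠ 0) →
    ∀ (e : Fin 3 → J → ℕ), (∀ t, ∑ i, A κ μ g e i t = 0) →
    ∃ Λ : Set K, Λ.Finite ∧ ∀ ρ : ℝ, 0 ≤ ρ → ρ < ρ₀ → ForMost κ μ g e Λ ρ (· ∈ 𝒢)

open Classical in
/-- For the products `A = ∏ E_i ^ (g_i)` of powers of the elliptic curves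
`E_i : y² = x³ + a_i x + b_i` over `L`, all polarizations given by positive definite matrices, and all
points `P` over `L`: some component of `P` is a torsion point of order at most `B`, so that a multiple
at most `B` of `P` lies in the product of the other factors, or all components have infinite order and
the canonical height of `P` is at least `(c / g) max (h_F(A/L), 1)`, `g = ∑ g_i`. -/
def Alternative (c B : ℝ) {L : Type} [Field L] [NumberField L] {r : ℕ} (a b : Fin r → L) : Prop :=
  ∀ τ : Fin r → InfinitePlace L → UpperHalfPlane, (∀ i, IsPeriod (jInv (a i) (b i)) (τ i)) →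
    ∀ g : Fin r → ℕ, (∀ i, 1 ≤ g i) → ∀ (M : ∀ i, Matrix (Fin (g i)) (Fin (g i)) ℤ),
    (∀ i, ((M i).map (Int.cast : ℤ → ℝ)).PosDef) → ∀ P : ∀ i, Fin (g i) → SPt (a i) (b i),
      (∃ i, IsOfFinAddOrder (P i) ∧ (addOrderOf (P i) : ℝ) ≤ B) ∨
      ((∀ i, ¬ IsOfFinAddOrder (P i)) ∧
        c / (∑ i, g i : ℕ) * max (∑ i, g i * faltings (a i) (b i) (τ i)) 1 ≤
          (∑ i, chatM (M i) (P i)) / Module.finrank ℚ L)

/-- **Main theorem.** There is an absolute constant `c₀ > 0` such that for every number field `K` and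
every `θ > 0`:
(1) there is a set `𝒢` which contains most invariants of all one-parameter families, with
`ρ₀ = 1 / 6 - θ`, such that the strong alternative with the constants `c₀ θ ^ 6` and `28 / θ ^ 2` holds
for all products of powers of elliptic curves over `K` with invariants in `𝒢`;
(2) for `κ ≥ 0` there is a set `𝒢` which contains most invariants of all one-parameter families, with
`ρ₀ = 1 / 6 - 2 (θ + κ)`, such that for all `j_i ∈ 𝒢` the strong alternative with the same constants
holds over all finite extensions `L` of `K`, of whatever degree, with root discriminant at most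
`δ_K * H(j_i) ^ κ` for all `i`, for all products of powers of elliptic curves over `L` of invariants
`j_i`. -/
theorem result : ∃ c₀ : ℝ, 0 < c₀ ∧ ∀ (K : Type) [Field K] [NumberField K] (θ : ℝ), 0 < θ →
    (∃ 𝒢 : Set K, ContainsMost 𝒢 (1 / 6 - θ) ∧
      ∀ (r : ℕ) (a b : Fin r → K), 0 < r → (∀ i, 4 * a i ^ 3 + 27 * b i ^ 2 ≠ 0) →
        (∀ i, jInv (a i) (b i) ∈ 𝒢) → Alternative (c₀ * θ ^ 6) (28 / θ ^ 2) a b) ∧
    (∀ κ : ℝ, 0 ≤ κ → ∃ 𝒢 : Set K, ContainsMost 𝒢 (1 / 6 - 2 * (θ + κ)) ∧
      ∀ (r : ℕ) (j : Fin r → K), 0 < r → (∀ i, j i ∈ 𝒢) →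
        ∀ (L : Type) [Field L] [NumberField L] [Algebra K L],
        (∀ i, rootDisc L ≤ rootDisc K * Real.exp (κ * absH (j i))) →
        ∀ a b : Fin r → L, (∀ i, 4 * a i ^ 3 + 27 * b i ^ 2 ≠ 0) →
        (∀ i, jInv (a i) (b i) = algebraMap K L (j i)) →
        Alternative (c₀ * θ ^ 6) (28 / θ ^ 2) a b) := by
  classical
  obtain ⟨c₁, hc₁, hs⟩ := strong_of
  have hstrong : ∀ (K : Type) [Field K] [NumberField K] (c B : ℝ) (j : K), 0 ≤ c →
      Pool.Agent.Results.MP_9a3c31_nt.DegreeFreeLangSilverman.LangSilverman c B j →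
      StrongLS (c₁ * c) B j := by
    intro K _ _ c B j hc h
    rw [Pool.Agent.Results.MP_9a3c31_nt.DegreeFreeLangSilverman.ls_iff] at h
    exact hs K c B j hc h
  have hcc : ∀ θ : ℝ, c₁ * (θ ^ 6 / 290000) = c₁ / 290000 * θ ^ 6 := fun θ => by ring
  refine ⟨c₁ / 290000, by positivity, ?_⟩
  intro K _ _ θ hθ
  constructor
  · refine ⟨{j | Pool.Agent.Results.MP_9a3c31_nt.DegreeFreeLangSilverman.LangSilverman
      (θ ^ 6 / 290000) (28 / θ ^ 2) j}, ?_, ?_⟩
    · intro J _ g hg κ μ hμ e hsum
      obtain ⟨Λ, hΛ, h1, -⟩ :=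
        Pool.Agent.Results.MP_9a3c31_nt.InvariantsAlongRecurrences.result g hg κ μ hμ e hsum
      exact ⟨Λ, hΛ, fun ρ hρ hρ' => h1 ρ θ hρ hθ (by linarith)⟩
    · intro r a b hr hD hj τ hτ g hg M hM P
      refine part_two (by positivity) hr a b τ hD (fun i => ?_) hτ g hg M hM P
      rw [← hcc]
      exact hstrong K _ _ _ (by positivity) (hj i)
  · intro κ hκ
    refine ⟨{j | Pool.Agent.Results.MP_9a3c31_nt.DegreeFreeLangSilverman.InExtensions κ
      (θ ^ 6 / 290000) (28 / θ ^ 2) j}, ?_, ?_⟩
    · intro J _ g hg κ' μ hμ e hsum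
      obtain ⟨Λ, hΛ, -, h1⟩ :=
        Pool.Agent.Results.MP_9a3c31_nt.InvariantsAlongRecurrences.result g hg κ' μ hμ e hsum
      exact ⟨Λ, hΛ, fun ρ hρ hρ' => h1 ρ θ κ hρ hθ hκ (by linarith)⟩
    · intro r j hr hj L _ _ _ hL a b hD hab τ hτ g hg M hM P
      refine part_two (by positivity) hr a b τ hD (fun i => ?_) hτ g hg M hM P
      rw [← hcc, hab i]
      exact hstrong L _ _ _ (by positivity) (hj i L (hL i))

end Pool.Agent.Results.MP_f5471b_nt.ProductsAlongRecurrences
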