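import Mathlib
import Pool.Agent.Q271.TP.Number
import Pool.Agent.Results.MP_f5471b_nt.DegreeFreeFaltings

/-!
# The strong alternative with the relative Faltings height for products of fibres of one-parameter
# families, for almost all parameters over all fields of bounded degree, and over all extensions of
# these fields of small root discriminant

Let `K` be a number field and `j_i = F_i/G_i`, `i < r`, nonconstant rational functions over `K`, `F_i`
and `G_i` coprime. Let `D = max_i max(deg F_i, deg G_i)`. There is `A` such that for all `n`, `0 < θ ≤ 1`, `κ ≥ 0` and `ε > 0` there is `C`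
with the following property. Let `L` be ANY extension of `K` of degree at most `n` over `ℚ`, and
`X ≥ 1`. For all `t ∈ L` of (relative, multiplicative) height at most `X` (there are about `X ^ 2`),
except for at most `C * X ^ (1 + D (θ + κ) + ε)` of them, the `j_i(t)` are finite and the following
alternative holds over ALL finite extensions `M` of `L`, of whatever degree, with root discriminant
`δ_M ≤ δ_L * H(j_i(t)) ^ κ` for all `i`, for all elliptic curves `E_i` over `M` of invariant `j_i(t)`
(all twists over `M`), all `g_i ≥ 1`, all polarizations of `A = ∏ E_i ^ (g_i)` given by positive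
definite matrices `M_i`, and all points `P` of `A` over `M`: either some component of `P`, in some
`E_i ^ (g_i)`, is a torsion point of order at most `28 / θ ^ 2` (so that `P`, up to this multiple, is in
the abelian subvariety given by the other factors), or each component has infinite order and the
canonical height of `P` is at least `(c₀ θ ^ 6 / g) max (h_F(A/M), 1)`, with `h_F` the RELATIVE Faltings
height, `g = ∑ g_i` and `c₀` an absolute constant. If every `F_i/G_i` has at least two different poles
on the projective line over the algebraic closure, there are at most `C * X ^ (A (θ + κ) + ε)`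
exceptions.

Proof: the bounds hold if the finite poles of `j_i(t)` have a product of norms of at least
`H(j_i(t)) ^ (θ + κ)` (`DegreeFreeFaltings`). If it is smaller, the number `G_i(t)` (or `t`, if `G_i` is
constant), respectively the number `(t - π) / (t - ρ)` for two poles `π`, `ρ`, is supported on a set of
primes of small total weight, up to the poles of `t` in the first case; the number of such elements
of bounded height is bounded uniformly in the field (helper673, `Pool.Agent.Y673.Cnt`).
-/

set_option autoImplicit false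

namespace Pool.Agent.Results.MP_f5471b_nt.ProductsInFamilies

open NumberField IsDedekindDomain Polynomial
open Pool.Agent.TH942
open Pool.Agent.TH910.LS hiding absH
open Pool.Agent.Results.MP_f5471b_nt.DegreeFreeFaltings

open Classical in
/-- For the products `A = ∏ E_i ^ (g_i)` of powers of the elliptic curves
`E_i : y² = x³ + a_i x + b_i` over `M`, all polarizations given by positive definite matrices, and all
points `P` over `M`: some component of `P` is a torsion point of order at most `B`, or all components
have infinite order and the canonical height of `P` is at least `(c / g) max (h_F(A/M), 1)`. -/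
def Alternative (c B : ℝ) {M : Type} [Field M] [NumberField M] {r : ℕ} (a b : Fin r → M) : Prop :=
  ∀ τ : Fin r → InfinitePlace M → UpperHalfPlane, (∀ i, IsPeriod (jInv (a i) (b i)) (τ i)) →
    ∀ g : Fin r → ℕ, (∀ i, 1 ≤ g i) → ∀ (Q : ∀ i, Matrix (Fin (g i)) (Fin (g i)) ℤ),
    (∀ i, ((Q i).map (Int.cast : ℤ → ℝ)).PosDef) → ∀ P : ∀ i, Fin (g i) → SPt (a i) (b i),
      (∃ i, IsOfFinAddOrder (P i) ∧ (addOrderOf (P i) : ℝ) ≤ B) ∨
      ((∀ i, ¬ IsOfFinAddOrder (P i)) ∧
        c / (∑ i, g i : ℕ) * max (∑ i, g i * faltings (a i) (b i) (τ i)) 1 ≤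
          (∑ i, chatM (Q i) (P i)) / Module.finrank ℚ M)

/-- The alternative holds over all finite extensions `M` of `L` with root discriminant at most
`δ_L * H(j_i) ^ κ` for all `i`, for all elliptic curves over `M` of invariants `j_i`. -/
def Strong {L : Type} [Field L] [NumberField L] {r : ℕ} (κ c B : ℝ) (j : Fin r → L) : Prop :=
  ∀ (M : Type) [Field M] [NumberField M] [Algebra L M],
    (∀ i, rootDisc M ≤ rootDisc L * Real.exp (κ * absH (j i))) →
    ∀ a b : Fin r → M, (∀ i, 4 * a i ^ 3 + 27 * b i ^ 2 ≠ 0) →
    (∀ i, jInv (a i) (b i) = algebraMap L M (j i)) → Alternative c B a b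

/-- The exceptional parameters: the `t ∈ L` of relative height at most `X` such that some `G_i(t) = 0`
or the alternative, with the constants `c₀ θ ^ 6` and `28 / θ ^ 2`, fails for the
`j_i = F_i(t)/G_i(t)`. -/
def Exceptional {K : Type} [Field K] {r : ℕ} (F G : Fin r → K[X]) (L : Type) [Field L]
    [NumberField L] [Algebra K L] (c₀ θ κ X : ℝ) : Set L :=
  {t | Height.mulHeight₁ t ≤ X ∧ ¬ ((∀ i, ((G i).map (algebraMap K L)).eval t ≠ 0) ∧
    Strong κ (c₀ * θ ^ 6) (28 / θ ^ 2)
      fun i => ((F i).map (algebraMap K L)).eval t / ((G i).map (algebraMap K L)).eval t)}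

/-- `F/G` has at least two different poles on the projective line over the algebraic closure. -/
def TwoPoles (K : Type) [Field K] (F G : K[X]) : Prop :=
  (∃ x y : AlgebraicClosure K, x ≠ y ∧ aeval x G = 0 ∧ aeval y G = 0) ∨
    (0 < G.natDegree ∧ G.natDegree < F.natDegree)

/-- **Main theorem.**
(1) The number of the exceptional parameters, for all finite families of nonconstant rational
functions `F_i/G_i`, in all fields of bounded degree, without and with the condition that there are
two poles; `c₀` is an absolute constant.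
(2) The number of all parameters. -/
theorem result :
    (∃ c₀ : ℝ, 0 < c₀ ∧ ∀ (K : Type) [Field K] [NumberField K] (r : ℕ), 0 < r →
      ∀ F G : Fin r → K[X], (∀ i, IsCoprime (F i) (G i)) → (∀ i, G i ≠ 0) →
      (∀ i, 0 < (F i).natDegree ∨ 0 < (G i).natDegree) → ∃ A : ℝ, 0 < A ∧
      ∀ (n : ℕ) (θ κ ε : ℝ), 0 < θ → θ ≤ 1 → 0 ≤ κ → 0 < ε → ∃ C : ℝ, 0 < C ∧
        ∀ (L : Type) [Field L] [NumberField L] [Algebra K L], Module.finrank ℚ L ≤ n →
          ∀ X : ℝ, 1 ≤ X → (Exceptional F G L c₀ θ κ X).Finite ∧
            ((Exceptional F G L c₀ θ κ X).ncard : ℝ) ≤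
              C * X ^ (1 + (Finset.univ.sup fun i => max (F i).natDegree (G i).natDegree : ℕ) * (θ + κ) + ε) ∧
            ((∀ i, TwoPoles K (F i) (G i)) →
              ((Exceptional F G L c₀ θ κ X).ncard : ℝ) ≤ C * X ^ (A * (θ + κ) + ε))) ∧
    (∀ ε : ℝ, 0 < ε → ∃ C : ℝ, 0 < C ∧
      ∀ (L : Type) [Field L] [NumberField L] (B : ℝ), 16 * √(rootDisc L) ≤ B →
        (C⁻¹ * B ^ (2 - ε) * rootDisc L ^ (-(2 + ε))) ^ Module.finrank ℚ L ≤
          (({t : L | Height.mulHeight₁ t ≤ B ^ Module.finrank ℚ L} : Set L).ncard : ℝ)) := by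
  refine ⟨?_, fun ε hε => Pool.Agent.Q271.TP.params_lower hε⟩
  obtain ⟨c₀, C₀, hc₀, hC₀, hLS, -, -, hprod, -⟩ := MP_f5471b_nt.DegreeFreeFaltings.result
  refine ⟨c₀, hc₀, ?_⟩
  intro K _ _ r hr F G hFG hG hne
  obtain ⟨A, hA, h⟩ := Pool.Agent.Q271.TP.multi_count K F G hFG hG hne
  refine ⟨A, hA, fun n θ κ ε hθ hθ1 hκ hε => ?_⟩
  obtain ⟨C, hC, h2⟩ := h n (θ + κ) ε (C₀ / θ ^ 2) (by positivity) hε
  refine ⟨C, hC, fun L _ _ _ hL X hX => ?_⟩
  have hn : (0 : ℝ) < Module.finrank ℚ L := by exact_mod_cast Module.finrank_pos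
  obtain ⟨f1, f2, f3⟩ := h2 L hL (fun _ j => InExtensions κ (c₀ * θ ^ 6) (28 / θ ^ 2) j) (by
    intro _ j h0 h1 hf hh
    refine hLS θ κ hθ hθ1 L j h0 h1 ?_ ?_
    · rw [poleCount_eq]
      have : 0 ≤ addCount j := by
        unfold addCount
        exact finsum_nonneg fun v => by split_ifs; exacts [Real.log_natCast_nonneg _, le_rfl]
      linarith
    · unfold absH
      rw [le_div_iff₀ hn]
      exact hh) X hX
  have hsub : Exceptional F G L c₀ θ κ X ⊆ ⋃ i, Pool.Agent.Q271.TP.Bad K (F i) (G i) L
      (fun j => InExtensions κ (c₀ * θ ^ 6) (28 / θ ^ 2) j) X := by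
    rintro t ⟨ht1, ht2⟩
    by_contra hcon
    rw [Set.mem_iUnion, not_exists] at hcon
    have hgood : ∀ i, ((G i).map (algebraMap K L)).eval t ≠ 0 ∧
        InExtensions κ (c₀ * θ ^ 6) (28 / θ ^ 2)
        (((F i).map (algebraMap K L)).eval t / ((G i).map (algebraMap K L)).eval t) := by
      intro i
      by_contra hi
      exact hcon i ⟨ht1, hi⟩
    refine ht2 ⟨fun i => (hgood i).1, ?_⟩
    intro M _ _ _ hM a b hD hab τ hτ g hg Q hQ P
    exact hprod θ κ hθ L r hr _ (fun i => (hgood i).2) M hM a b τ hD hab hτ g hg Q hQ P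
  have hcard : ((Exceptional F G L c₀ θ κ X).ncard : ℝ) ≤
      ((⋃ i, Pool.Agent.Q271.TP.Bad K (F i) (G i) L
      (fun j => InExtensions κ (c₀ * θ ^ 6) (28 / θ ^ 2) j) X).ncard : ℝ) := by
    exact_mod_cast Set.ncard_le_ncard hsub f1
  exact ⟨f1.subset hsub, hcard.trans f2, fun hT => hcard.trans (f3 hT)⟩

end Pool.Agent.Results.MP_f5471b_nt.ProductsInFamilies
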