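import Mathlib
import Pool.Agent.Results.MP_9a3c31_nt.SmallDigitInvariants
import Pool.Agent.Results.MP_f5471b_nt.DegreeFreeFaltings

/-!
# The strong alternative of Lang and Silverman with the relative Faltings height, for all products of
# elliptic curves whose invariants are composed of numbers with small digits

Let `t` be an integer of a number field `K` all of whose conjugates are at least `T` in absolute
value (the base). The invariant `j ∈ K` is composed of numbers with small digits in the base `t` if
`(j : 1728 - j : -1728)` has coordinates `b k * ∏ i, F i (t) ^ e k i` with pairwise coprime numbers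
`F i (t)` with small digits, at most `D` in all, small `b k`, and exponents at most `T ^ δ`, and the
product of the `F i (t)` which occur with different exponents in the coordinates is squarefree. These
are the invariants of the elliptic curves for which `c₄`, `c₆` and `Δ` are such products.

We prove the strong alternative of the problem for all products of powers `A = ∏ E_i ^ (g_i)` of
elliptic curves over `K` with such invariants, without exceptions, with an absolute constant `c₀`
and with torsion points of order at most `1008`, over all number fields `K` at once, and similarly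
over all extensions of small root discriminant.
-/

set_option autoImplicit false

namespace Pool.Agent.Results.MP_f5471b_nt.SmallDigitInvariants

open Polynomial IsDedekindDomain NumberField
open Pool.Agent.TH942 (SPt)
open Pool.Agent.TH910.LS (chatM)
open Pool.Agent.Results.MP_9a3c31_nt.SmallDigitInvariants (Composed)
open Pool.Agent.Results.MP_f5471b_nt.DegreeFreeFaltings

open Classical in
/-- The strong alternative, with the constants `c` and `B`, for a product of powers
`A = ∏ E_i ^ (g_i)` of elliptic curves `y² = x³ + a_i x + b_i` over `L` with periods `τ_i`, for all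
polarizations `M_i` and all points `P` over `L`: for some `i` the component `P_i` in `E_i ^ (g_i)` is
a torsion point of order at most `B`, so that a multiple at most `B` of `P` lies in the product of
the other factors, or no component is a torsion point and the canonical height of `P` is at least
`(c / ∑ g_i) max (h_F(A/L), 1)`. -/
def Alternative (c B : ℝ) {L : Type} [Field L] [NumberField L] {r : ℕ} (a b : Fin r → L)
    (τ : Fin r → InfinitePlace L → UpperHalfPlane) : Prop :=
  ∀ (g : Fin r → ℕ), (∀ i, 1 ≤ g i) → ∀ (M : ∀ i, Matrix (Fin (g i)) (Fin (g i)) ℤ),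
    (∀ i, ((M i).map (Int.cast : ℤ → ℝ)).PosDef) →
    ∀ P : ∀ i, Fin (g i) → SPt (a i) (b i),
      (∃ i, IsOfFinAddOrder (P i) ∧ (addOrderOf (P i) : ℝ) ≤ B) ∨
      ((∀ i, ¬ IsOfFinAddOrder (P i)) ∧
        c / (∑ i, g i : ℕ) * max (∑ i, g i * faltings (a i) (b i) (τ i)) 1 ≤
          (∑ i, chatM (M i) (P i)) / Module.finrank ℚ L)

/-- **Main theorem.** There is an absolute constant `c₀ > 0` such that for all `D` there are `δ > 0`
and `T₀` such that for all `T ≥ T₀`, all number fields `K` and all elliptic curves over `K` whose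
invariants `j_i` are composed of numbers with small digits in bases `t_i`:
(1) the strong alternative with the constants `c₀` and `1008` holds over `K` for all products of
powers of these curves;
(2) if `θ > 0`, `κ ≥ 0` and `θ + κ ≤ 1 / 12` (with `δ`, `T₀` depending on `θ`), the strong
alternative with the constants `c₀ * θ ^ 6` and `28 / θ ^ 2` holds over all finite extensions `L` of
`K`, of whatever degree, with root discriminant at most `δ_K * H(j_i) ^ κ` for all `i`, for all
products of powers of elliptic curves over `L` of invariants `j_i`. -/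
theorem result : ∃ c₀ : ℝ, 0 < c₀ ∧ ∀ D : ℕ,
    (∃ δ : ℝ, 0 < δ ∧ ∃ T₀ : ℝ, 1 ≤ T₀ ∧ ∀ T : ℝ, T₀ ≤ T →
      ∀ (K : Type) [Field K] [NumberField K] (r : ℕ) (a b : Fin r → K)
        (τ : Fin r → InfinitePlace K → UpperHalfPlane), 0 < r →
        (∀ i, 4 * a i ^ 3 + 27 * b i ^ 2 ≠ 0) →
        (∀ i, ∃ t : 𝓞 K, Composed D δ T t (jInv (a i) (b i))) →
        (∀ i, IsPeriod (jInv (a i) (b i)) (τ i)) → Alternative c₀ 1008 a b τ) ∧
    (∀ θ : ℝ, 0 < θ → ∃ δ : ℝ, 0 < δ ∧ ∃ T₀ : ℝ, 1 ≤ T₀ ∧ ∀ T : ℝ, T₀ ≤ T →
      ∀ (K : Type) [Field K] [NumberField K] (r : ℕ) (j : Fin r → K), 0 < r →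
        (∀ i, ∃ t : 𝓞 K, Composed D δ T t (j i)) →
        ∀ κ : ℝ, 0 ≤ κ → θ + κ ≤ 1 / 12 →
        ∀ (L : Type) [Field L] [NumberField L] [Algebra K L],
        (∀ i, rootDisc L ≤ rootDisc K * Real.exp (κ * absH (j i))) →
        ∀ (a b : Fin r → L) (τ : Fin r → InfinitePlace L → UpperHalfPlane),
        (∀ i, 4 * a i ^ 3 + 27 * b i ^ 2 ≠ 0) →
        (∀ i, jInv (a i) (b i) = algebraMap K L (j i)) →
        (∀ i, IsPeriod (jInv (a i) (b i)) (τ i)) →
        Alternative (c₀ * θ ^ 6) (28 / θ ^ 2) a b τ) := by
  classical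
  obtain ⟨c₁, hc₁, hs⟩ := strong_of
  have hstrong : ∀ (K : Type) [Field K] [NumberField K] (c B : ℝ) (j : K), 0 ≤ c →
      Pool.Agent.Results.MP_9a3c31_nt.DegreeFreeLangSilverman.LangSilverman c B j →
      StrongLS (c₁ * c) B j := by
    intro K _ _ c B j hc h
    rw [Pool.Agent.Results.MP_9a3c31_nt.DegreeFreeLangSilverman.ls_iff] at h
    exact hs K c B j hc h
  refine ⟨c₁ * ((1 / 6) ^ 6 / 290000), by positivity, ?_⟩
  intro D
  obtain ⟨m1, m2⟩ := Pool.Agent.Results.MP_9a3c31_nt.SmallDigitInvariants.result D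
  constructor
  · obtain ⟨δ, hδ, T₀, hT₀, h⟩ := m1
    refine ⟨δ, hδ, T₀, hT₀, ?_⟩
    intro T hT K _ _ r a b τ hr hD hj hτ g hg M hM P
    refine part_two (by positivity) hr a b τ hD (fun i => ?_) hτ g hg M hM P
    obtain ⟨t, ht⟩ := hj i
    exact hstrong K _ _ _ (by positivity) (h T hT K t _ ht)
  · intro θ hθ
    obtain ⟨δ, hδ, T₀, hT₀, h⟩ := m2 θ hθ
    refine ⟨δ, hδ, T₀, hT₀, ?_⟩
    intro T hT K _ _ r j hr hj κ hκ hθκ L _ _ _ hL a b τ hD hab hτ g hg M hM P
    refine part_two (by positivity) hr a b τ hD (fun i => ?_) hτ g hg M hM P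
    obtain ⟨t, ht⟩ := hj i
    have h1 := hstrong L _ _ _ (by positivity) (h T hT K t _ ht κ hκ hθκ L (hL i))
    rw [hab i]
    intro a' b' τ' hD' hj' hτ' g'
    obtain ⟨h2, h3⟩ := h1 a' b' τ' hD' hj' hτ' g'
    refine ⟨h2, fun M' hM' P' hP' => le_trans ?_ (h3 M' hM' P' hP')⟩
    apply mul_le_mul_of_nonneg_right _ (le_trans zero_le_one (le_max_right _ _))
    have h4 : (1 / 6 : ℝ) ^ 6 ≤ 1 := by norm_num
    have h5 : 0 ≤ c₁ * θ ^ 6 / 290000 := by positivity
    calc c₁ * ((1 / 6) ^ 6 / 290000) * θ ^ 6 = (1 / 6) ^ 6 * (c₁ * θ ^ 6 / 290000) := by ring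
      _ ≤ 1 * (c₁ * θ ^ 6 / 290000) := mul_le_mul_of_nonneg_right h4 h5
      _ = c₁ * (θ ^ 6 / 290000) := by ring

end Pool.Agent.Results.MP_f5471b_nt.SmallDigitInvariants
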